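import Mathlib

set_option autoImplicit false

namespace Pool.Agent.H.Mink

structure H {α : Type} (lt : α → α → Prop) (p : Set α) (c : Fin 3 → Set α) : Prop where
  A : ∀ a ∈ p, ∀ b ∈ p, ¬ lt a b
  R : ∀ a ∈ p, ∀ i, ∃ x ∈ c i, lt a x
  D : ∀ i j, ∀ x ∈ c i, x ∈ c j → i = j
  C0 : ∀ i, ∀ x ∈ c i, ∃ a ∈ p, lt a x
  C1 : ∀ i, ∀ x ∈ c i, ∀ u, lt u x → (∃ a ∈ p, lt a u) → u ∈ c i
  C3 : ∀ i, ∀ x ∈ c i, ∃ y ∈ c i, lt x y
  I : ∀ y, (∃ a ∈ p, lt a y) → (∀ i, y ∉ c i) → ∃ z, lt z y ∧ ∀ i, ∃ x ∈ c i, lt x z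
  W : ∀ y, y ∉ p → (¬∃ a ∈ p, lt a y) → ∃ i, ∃ x ∈ c i, lt y x

abbrev V := Fin 3 → ℝ

def B (u v : V) : ℝ := u 0 * v 0 - u 1 * v 1 - u 2 * v 2

def K (w : V) : Prop := 0 < w 0 ∧ 0 ≤ B w w

def L (x y : V) : Prop := K (y - x)

lemma B_nonneg {u v : V} (hu : K u) (hv : K v) : 0 ≤ B u v := by
  obtain ⟨a, b⟩ := hu
  obtain ⟨c, d⟩ := hv
  unfold B at *
  refine nonneg_of_mul_nonneg_right (a := 2 * (u 0 * v 0)) ?_ (by positivity)
  nlinarith [sq_nonneg (v 0 * u 1 - u 0 * v 1), sq_nonneg (v 0 * u 2 - u 0 * v 2),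
    mul_nonneg (sq_nonneg (v 0)) b, mul_nonneg (sq_nonneg (u 0)) d]

lemma par {u v : V} (hu : K u) (hv : K v) (h : B u v ≤ 0) : ∃ κ : ℝ, 0 < κ ∧ u = κ • v := by
  obtain ⟨a, b⟩ := hu
  obtain ⟨c, d⟩ := hv
  unfold B at *
  have e : (v 0 * u 1 - u 0 * v 1) ^ 2 + (v 0 * u 2 - u 0 * v 2) ^ 2 ≤ 0 := by
    nlinarith [mul_nonneg (sq_nonneg (v 0)) b, mul_nonneg (sq_nonneg (u 0)) d,
      mul_nonneg (mul_pos a c).le (neg_nonneg.2 h)]
  have e1 : v 0 * u 1 - u 0 * v 1 = 0 := by nlinarith [sq_nonneg (v 0 * u 2 - u 0 * v 2)]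
  have e2 : v 0 * u 2 - u 0 * v 2 = 0 := by nlinarith [sq_nonneg (v 0 * u 1 - u 0 * v 1)]
  refine ⟨u 0 / v 0, by positivity, funext fun i => ?_⟩
  fin_cases i <;> simp <;> field_simp <;> linarith

lemma K_add {u v : V} (hu : K u) (hv : K v) : K (u + v) := by
  have := B_nonneg hu hv
  obtain ⟨a, b⟩ := hu
  obtain ⟨c, d⟩ := hv
  simp only [K, B, Pi.add_apply] at *
  exact ⟨by linarith, by nlinarith⟩

lemma K_smul {u : V} (hu : K u) {s : ℝ} (hs : 0 < s) : K (s • u) := by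
  obtain ⟨a, b⟩ := hu
  simp only [K, B, Pi.smul_apply, smul_eq_mul] at *
  exact ⟨by positivity, by nlinarith [mul_nonneg (sq_nonneg s) b]⟩

lemma par' {u v : V} (hu : K u) (hv : K v) (h : B (u + v) (u + v) ≤ 0) :
    ∃ κ : ℝ, 0 < κ ∧ u = κ • v := by
  refine par hu hv ?_
  obtain ⟨a, b⟩ := hu
  obtain ⟨c, d⟩ := hv
  simp only [B, Pi.add_apply] at *
  nlinarith

lemma L_trans {x y z : V} (h : L x y) (k : L y z) : L x z := by
  have := K_add k h
  rwa [sub_add_sub_cancel] at this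

lemma small {u : V} (h0 : 0 < u 0) (h : 0 < B u u) (w : V) {t : ℝ} (ht : 0 < t) :
    ∃ s : ℝ, 0 < s ∧ s < t ∧ K (u - s • w) := by
  have c1 : Continuous fun s : ℝ => (u - s • w) 0 := by fun_prop
  have c2 : Continuous fun s : ℝ => B (u - s • w) (u - s • w) := by unfold B; fun_prop
  have e1 := continuousAt_const.eventually_lt (c1.continuousAt (x := 0)) (by simpa using h0)
  have e2 := continuousAt_const.eventually_lt (c2.continuousAt (x := 0)) (by simpa using h)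
  obtain ⟨s, ⟨a, b⟩, c, d⟩ := ((((e1.and e2).filter_mono nhdsWithin_le_nhds).and
    (Ioo_mem_nhdsGT ht))).exists
  exact ⟨s, c, d, a, b.le⟩

variable {p : Set V} {c : Fin 3 → Set V}

lemma null (h : H L p c) {i : Fin 3} {a x : V} (ha : a ∈ p) (hx : x ∈ c i) (l : L a x) :
    B (x - a) (x - a) = 0 := by
  refine le_antisymm (not_lt.1 fun k => ?_) l.2
  obtain ⟨z, hz, lz⟩ := h.R a ha (i + 1)
  obtain ⟨s, s0, s1, ks⟩ := small l.1 k (z - a) one_pos
  have l1 : L a (a + s • (z - a)) := by simpa [L] using K_smul lz s0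
  have l2 : L (a + s • (z - a)) x := by rwa [L, ← sub_sub]
  have l3 : L (a + s • (z - a)) z := by
    have := K_smul lz (sub_pos.2 s1)
    rwa [sub_smul, one_smul, sub_sub] at this
  have := h.D _ _ _ (h.C1 _ _ hx _ l2 ⟨a, ha, l1⟩) (h.C1 _ _ hz _ l3 ⟨a, ha, l1⟩)
  revert this; generalize i = i; revert i; decide

lemma ray (h : H L p c) {i : Fin 3} {a x : V} (ha : a ∈ p) (hx : x ∈ c i) (l : L a x)
    (s : ℝ) (hs : 0 < s) : a + s • (x - a) ∈ c i := by
  set n := x - a with hn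
  have la : ∀ t : ℝ, 0 < t → L a (a + t • n) := fun t ht => by simpa [L] using K_smul l ht
  have ll : ∀ t t' : ℝ, t < t' → L (a + t • n) (a + t' • n) := fun t t' ht => by
    have := K_smul l (sub_pos.2 ht)
    rwa [sub_smul, ← add_sub_add_left_eq_sub _ _ a] at this
  have dn : ∀ j (t t' : ℝ), 0 < t → t < t' → a + t' • n ∈ c j → a + t • n ∈ c j :=
    fun j t t' h0 h1 h2 => h.C1 _ _ h2 _ (ll _ _ h1) ⟨a, ha, la _ h0⟩
  by_contra k
  let S : Set ℝ := {t | a + t • n ∈ c i}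
  have S1 : (1 : ℝ) ∈ S := by simpa [S, hn] using hx
  have bd : BddAbove S := ⟨s, fun t ht => not_lt.1 fun q => k (dn _ _ _ hs q ht)⟩
  have r1 : 0 < sSup S := one_pos.trans_le (le_csSup bd S1)
  have lo : ∀ t, 0 < t → t < sSup S → t ∈ S := fun t h0 h1 => by
    obtain ⟨t', m, q⟩ := exists_lt_of_lt_csSup ⟨1, S1⟩ h1
    exact dn _ _ _ h0 q m
  by_cases q : ∃ j, a + sSup S • n ∈ c j
  · obtain ⟨j, hj⟩ := q
    obtain rfl := h.D _ _ _ (lo _ (half_pos r1) (half_lt_self r1))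
      (dn _ _ _ (half_pos r1) (half_lt_self r1) hj)
    obtain ⟨y, hy, ly⟩ := h.C3 _ _ hj
    obtain ⟨κ, κ0, e⟩ := par' ly (la _ r1) (by
      rw [sub_add_sub_cancel]; exact (null h ha hy (L_trans (la _ r1) ly)).le)
    have : sSup S + κ * sSup S ∈ S := by
      rw [add_sub_cancel_left, sub_eq_iff_eq_add, smul_smul] at e
      show a + _ • n ∈ c i
      rwa [add_smul, ← add_assoc, add_comm, ← e]
    have := le_csSup bd this
    nlinarith [mul_pos κ0 r1]
  · push Not at q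
    obtain ⟨z, lz, hz⟩ := h.I _ ⟨a, ha, la _ r1⟩ q
    have key : ∀ j, j ≠ i → ∃ κ : ℝ, 0 < κ ∧ z - κ • (a + sSup S • n - z) ∈ c j := by
      intro j hj
      obtain ⟨u, hu, lu⟩ := hz j
      obtain ⟨κ, κ0, e⟩ := par' lu lz (by
        rw [add_comm, sub_add_sub_cancel]
        refine not_lt.1 fun k => hj ?_
        obtain ⟨t, t0, t1, kt⟩ := small (L_trans lu lz).1 k n r1
        refine h.D _ _ _ hu (h.C1 _ _ (lo (sSup S - t) (by linarith) (by linarith)) _ ?_
          (h.C0 _ _ hu))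
        rwa [L, sub_smul, ← add_sub_assoc, sub_right_comm])
      exact ⟨κ, κ0, by rwa [← e, sub_sub_cancel]⟩
    obtain ⟨κ, κ0, e⟩ := key (i + 1) (by generalize i = i; revert i; decide)
    obtain ⟨μ, μ0, f⟩ := key (i + 2) (by generalize i = i; revert i; decide)
    have ll : ∀ t t' : ℝ, t < t' → L (z - t' • (a + sSup S • n - z)) (z - t • (a + sSup S • n - z)) :=
      fun t t' ht => by
        have := K_smul lz (sub_pos.2 ht)
        rwa [sub_smul, ← sub_sub_sub_cancel_left _ _ z] at this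
    have : i + 1 = i + 2 := by
      rcases lt_trichotomy κ μ with g | rfl | g
      · exact h.D _ _ _ (h.C1 _ _ e _ (ll _ _ g) (h.C0 _ _ f)) f
      · exact h.D _ _ _ e f
      · exact h.D _ _ _ e (h.C1 _ _ f _ (ll _ _ g) (h.C0 _ _ e))
    revert this; generalize i = i; revert i; decide

lemma half (h : H L p c) {i : Fin 3} {a x b : V} (ha : a ∈ p) (hx : x ∈ c i) (l : L a x)
    (hb : b ∈ p) : B (a - b) (x - a) ≤ 0 := by
  refine not_lt.1 fun k => ?_
  obtain ⟨s, hs⟩ := exists_gt (max (max (-B (a - b) (a - b) / (2 * B (a - b) (x - a)))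
    (-(a - b) 0 / (x - a) 0)) 0)
  simp only [max_lt_iff] at hs
  obtain ⟨⟨s1, s2⟩, s3⟩ := hs
  rw [div_lt_iff₀ (by positivity)] at s1
  rw [div_lt_iff₀ l.1] at s2
  have n := null h ha hx l
  have e : 0 < B (a + s • (x - a) - b) (a + s • (x - a) - b) := by
    have : B (a + s • (x - a) - b) (a + s • (x - a) - b) = B (a - b) (a - b) +
        s * (2 * B (a - b) (x - a)) + s ^ 2 * B (x - a) (x - a) := by
      simp only [B, Pi.add_apply, Pi.sub_apply, Pi.smul_apply, smul_eq_mul]; ring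
    rw [this, n]; linarith
  refine e.ne' (null h hb (ray h ha hx l s s3) ⟨?_, e.le⟩)
  simp only [Pi.add_apply, Pi.sub_apply, Pi.smul_apply, smul_eq_mul] at *
  linarith

lemma gram (h : H L p c) {i j : Fin 3} {a x z : V} (ha : a ∈ p) (hx : x ∈ c i) (l : L a x)
    (hz : z ∈ c j) (l' : L a z) (ne : i ≠ j) : 0 < B (z - a) (x - a) := by
  refine not_le.1 fun k => ne ?_
  obtain ⟨κ, κ0, e⟩ := par l' l k
  have := ray h ha hx l κ κ0
  rw [← e, add_sub_cancel] at this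
  exact h.D _ _ _ this hz

lemma mid (h : H L p c) {a a' m : V} (ha : a ∈ p) (ha' : a' ∈ p) (hm : ∀ k, 2 * m k = a k + a' k) :
    m ∈ p ∨ ∃ b ∈ p, L b m := by
  by_contra k
  obtain ⟨i, x, hx, lx⟩ := h.W m (fun q => k (.inl q)) (fun q => k (.inr q))
  obtain ⟨b, hb, lb⟩ := h.C0 _ _ hx
  have hf : ∀ {j z}, z ∈ c j → L b z → B (b - m) (z - b) ≤ 0 := fun {j z} hz lz => by
    have e : 2 * B (b - m) (z - b) = B (b - a) (z - b) + B (b - a') (z - b) := by
      simp only [B, Pi.sub_apply]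
      linear_combination (-(z 0 - b 0)) * hm 0 + (z 1 - b 1) * hm 1 + (z 2 - b 2) * hm 2
    linarith [half h hb hz lz ha, half h hb hz lz ha']
  obtain ⟨κ, κ0, e⟩ := par lx lb (by
    have : B (x - m) (x - b) = B (x - b) (x - b) + B (b - m) (x - b) := by
      simp only [B, Pi.sub_apply]; ring
    rw [this, null h hb hx lb]; linarith [hf hx lb])
  have e' : b - m = (κ - 1) • (x - b) := by rw [sub_smul, ← e, one_smul]; abel
  rcases lt_trichotomy κ 1 with g | rfl | g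
  · refine k (.inr ⟨b, hb, ?_⟩)
    have := K_smul lb (sub_pos.2 g)
    rwa [← neg_sub κ, neg_smul, ← e', neg_sub] at this
  · rw [sub_self, zero_smul, sub_eq_zero] at e'
    exact k (.inl (e' ▸ hb))
  · obtain ⟨z, hz, lz⟩ := h.R b hb (i + 1)
    have g1 := gram h hb hz lz hx lb (by generalize i = i; revert i; decide)
    have g2 := hf hz lz
    have : B (b - m) (z - b) = (κ - 1) * B (x - b) (z - b) := by
      rw [e']; simp only [B, Pi.smul_apply, smul_eq_mul]; ring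
    nlinarith [mul_pos (sub_pos.2 g) g1]

theorem uniq {d : Fin 3 → Set V} (h : H L p c) (h' : H (fun x y => L y x) p d) {a a' : V}
    (ha : a ∈ p) (ha' : a' ∈ p) : a = a' := by
  have ng : ∀ x y : V, L (-x) (-y) ↔ L y x := fun x y => by simp only [L, neg_sub_neg]
  have ng' : ∀ x y : V, L x (-y) ↔ L y (-x) := fun x y => by rw [← ng, neg_neg]
  have ng'' : ∀ x y : V, L (-x) y ↔ L (-y) x := fun x y => by rw [← ng, neg_neg]
  have ex : ∀ (s : Set V) (q : V → Prop), (∃ x ∈ s, q x) → ∃ x, -x ∈ s ∧ q (-x) :=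
    fun s q ⟨x, u, v⟩ => ⟨-x, by rwa [neg_neg], by rwa [neg_neg]⟩
  have h2 : H L {x | -x ∈ p} (fun i => {x | -x ∈ d i}) :=
    { A := fun a ha b hb k => h'.A _ ha _ hb ((ng _ _).2 k)
      R := fun a ha i => by simpa only [ng, Set.mem_setOf_eq] using ex _ _ (h'.R _ ha i)
      D := fun i j x => h'.D i j _
      C0 := fun i x hx => by simpa only [ng, Set.mem_setOf_eq] using ex _ _ (h'.C0 i _ hx)
      C1 := fun i x hx u l ⟨a, ha, k⟩ => h'.C1 i _ hx _ ((ng _ _).2 l) ⟨_, ha, (ng _ _).2 k⟩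
      C3 := fun i x hx => by simpa only [ng, Set.mem_setOf_eq] using ex _ _ (h'.C3 i _ hx)
      I := fun y ⟨a, ha, k⟩ q => by
        obtain ⟨z, l, r⟩ := h'.I _ ⟨_, ha, (ng _ _).2 k⟩ q
        refine ⟨-z, (ng'' _ _).1 l, fun i => ?_⟩
        simpa only [ng', Set.mem_setOf_eq] using ex _ _ (r i)
      W := fun y hy q => by
        obtain ⟨i, r⟩ := h'.W _ hy fun r => q (by simpa only [ng, Set.mem_setOf_eq] using ex _ _ r)
        exact ⟨i, by simpa only [ng, Set.mem_setOf_eq] using ex _ _ r⟩ }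
  let m : V := fun k => (a k + a' k) / 2
  have hm : ∀ k, 2 * m k = a k + a' k := fun k => by simp only [m]; ring
  have mp : m ∈ p := by
    rcases mid h ha ha' hm with q | ⟨b, hb, l⟩
    · exact q
    rcases mid h2 (a := -a) (a' := -a') (m := -m) (by simpa using ha) (by simpa using ha')
      (fun k => by simp only [Pi.neg_apply]; linarith [hm k]) with q | ⟨b', hb', l'⟩
    · simpa using q
    · exact absurd (L_trans l ((ng' _ _).1 l')) (h.A _ hb _ hb')
  choose x hx lx using h.R m mp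
  have o : ∀ i, B (a - m) (x i - m) = 0 := fun i => by
    have e1 := half h mp (hx i) (lx i) ha
    have e2 := half h mp (hx i) (lx i) ha'
    have f1 : B (m - a) (x i - m) = -B (a - m) (x i - m) := by
      simp only [B, Pi.sub_apply]; ring
    have f2 : B (m - a') (x i - m) = B (a - m) (x i - m) := by
      simp only [B, Pi.sub_apply]
      linear_combination (x i 0 - m 0) * hm 0 - (x i 1 - m 1) * hm 1 - (x i 2 - m 2) * hm 2
    linarith
  have g1 := gram h mp (hx 0) (lx 0) (hx 1) (lx 1) (by decide)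
  have g2 := gram h mp (hx 0) (lx 0) (hx 2) (lx 2) (by decide)
  have g3 := gram h mp (hx 1) (lx 1) (hx 2) (lx 2) (by decide)
  have n0 := null h mp (hx 0) (lx 0)
  have n1 := null h mp (hx 1) (lx 1)
  have n2 := null h mp (hx 2) (lx 2)
  have o0 := o 0
  have o1 := o 1
  have o2 := o 2
  have gg := mul_pos (mul_pos g1 g2) g3
  have ev : ∀ k, (a - m) k = 0 → a k = a' k := fun k e => by
    rw [Pi.sub_apply] at e; linarith [hm k]
  generalize x 0 - m = u at *
  generalize x 1 - m = v at *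
  generalize x 2 - m = w at *
  generalize a - m = y at *
  have dd : (u 0 * (v 1 * w 2 - v 2 * w 1) - u 1 * (v 0 * w 2 - v 2 * w 0) +
      u 2 * (v 0 * w 1 - v 1 * w 0)) ^ 2 = B u u * B v v * B w w + 2 * (B v u * B w u * B w v) -
      B u u * B w v ^ 2 - B v v * B w u ^ 2 - B w w * B v u ^ 2 := by
    simp only [B]; ring
  have dn : u 0 * (v 1 * w 2 - v 2 * w 1) - u 1 * (v 0 * w 2 - v 2 * w 0) +
      u 2 * (v 0 * w 1 - v 1 * w 0) ≠ 0 := fun e => by
    rw [e, n0, n1, n2] at dd; linarith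
  unfold B at o0 o1 o2
  funext k
  refine ev k ((mul_eq_zero.1 ?_).resolve_left dn)
  fin_cases k
  · show _ * y 0 = 0
    linear_combination (v 1 * w 2 - v 2 * w 1) * o0 - (u 1 * w 2 - u 2 * w 1) * o1 +
      (u 1 * v 2 - u 2 * v 1) * o2
  · show _ * y 1 = 0
    linear_combination (v 0 * w 2 - v 2 * w 0) * o0 - (u 0 * w 2 - u 2 * w 0) * o1 +
      (u 0 * v 2 - u 2 * v 0) * o2
  · show _ * y 2 = 0
    linear_combination -(v 0 * w 1 - v 1 * w 0) * o0 + (u 0 * w 1 - u 1 * w 0) * o1 -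
      (u 0 * v 1 - u 1 * v 0) * o2

end Pool.Agent.H.Mink
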