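import Pool.Agent.H.MP_2ea006_lc.A

set_option autoImplicit false

namespace Pool.Agent.H.Mink

inductive Fm
  | atm (k : ℕ)
  | neg (a : Fm)
  | conj (a b : Fm)
  | fut (a : Fm)
  | past (a : Fm)

def ev {α : Type} (lt : α → α → Prop) (v : ℕ → Set α) : Fm → Set α
  | .atm k => v k
  | .neg a => (ev lt v a)ᶜ
  | .conj a b => ev lt v a ∩ ev lt v b
  | .fut a => {x | ∃ y ∈ ev lt v a, lt x y}
  | .past a => {x | ∃ y ∈ ev lt v a, lt y x}

def Fm.rev : Fm → Fm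
  | .atm k => .atm k
  | .neg a => .neg a.rev
  | .conj a b => .conj a.rev b.rev
  | .fut a => .past a.rev
  | .past a => .fut a.rev

lemma ev_rev {α : Type} (lt : α → α → Prop) (v : ℕ → Set α) (a : Fm) :
    ev lt v a.rev = ev (fun x y => lt y x) v a := by
  induction a <;> simp only [Fm.rev, ev, *]

def imp (a b : Fm) : Fm := .neg (.conj a (.neg b))

def all3 (f : Fin 3 → Fm) : Fm := .conj (f 0) (.conj (f 1) (f 2))

lemma ev_imp {α : Type} (lt : α → α → Prop) (v : ℕ → Set α) (a b : Fm) (x : α) :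
    x ∈ ev lt v (imp a b) ↔ (x ∈ ev lt v a → x ∈ ev lt v b) := by simp [imp, ev]

lemma ev_all3 {α : Type} (lt : α → α → Prop) (v : ℕ → Set α) (f : Fin 3 → Fm) (x : α) :
    x ∈ ev lt v (all3 f) ↔ ∀ i, x ∈ ev lt v (f i) := by simp [all3, ev, Fin.forall_fin_succ]

def hf (o : ℕ) : Fm :=
  let p := Fm.atm 0
  let c : Fin 3 → Fm := fun i => .atm (o + i)
  .conj (imp p (.neg (.fut p))) <| .conj (imp p (all3 fun i => .fut (c i))) <|
  .conj (all3 fun i => imp (c i) (.neg (c (i + 1)))) <| .conj (all3 fun i => imp (c i) (.past p)) <|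
  .conj (all3 fun i => imp (c i) (.neg (.past (.neg (imp (.past p) (c i)))))) <|
  .conj (all3 fun i => imp (c i) (.fut (c i))) <|
  .conj (imp (.past p) (imp (all3 fun i => .neg (c i)) (.past (all3 fun i => .past (c i))))) <|
  imp (.neg p) (imp (.neg (.past p)) (.neg (all3 fun i => .neg (.fut (c i)))))

lemma ev_hf {α : Type} (lt : α → α → Prop) (v : ℕ → Set α) (o : ℕ) :
    (∀ y, y ∈ ev lt v (hf o)) ↔ H lt (v 0) (fun i => v (o + i)) := by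
  simp only [hf, ev, Set.mem_inter_iff, ev_imp, ev_all3, Set.mem_compl_iff, Set.mem_setOf_eq,
    forall_and]
  constructor
  · rintro ⟨h1, h2, h3, h4, h5, h6, h7, h8⟩
    refine ⟨fun a ha b hb k => h1 a ha ⟨b, hb, k⟩, h2, fun i j x hi hj => ?_, fun i x => h4 x i,
      fun i x hx u l k => by_contra fun q => h5 x i hx ⟨u, fun r => q (r k), l⟩, fun i x => h6 x i,
      fun y a b => ?_, fun y a b => by_contra fun q => h8 y a b fun i r => q ⟨i, r⟩⟩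
    · have : ∀ i j : Fin 3, i = j ∨ j = i + 1 ∨ i = j + 1 := by decide
      rcases this i j with e | rfl | rfl
      exacts [e, absurd hj (h3 x _ hi), absurd hi (h3 x _ hj)]
    · obtain ⟨z, r, s⟩ := h7 y a b
      exact ⟨z, s, r⟩
  · intro h
    refine ⟨fun a ha ⟨b, hb, k⟩ => h.A a ha b hb k, h.R, fun x i hi hj => ?_, fun x i => h.C0 i x,
      fun x i hx ⟨u, q, l⟩ => q (h.C1 i x hx u l), fun x i => h.C3 i x, fun y a b => ?_,
      fun y a b q => ?_⟩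
    · have := h.D _ _ x hi hj
      revert this; generalize i = i; revert i; decide
    · obtain ⟨z, r, s⟩ := h.I y a b
      exact ⟨z, s, r⟩
    · obtain ⟨i, r⟩ := h.W y a b
      exact q i r

def psi : Fm :=
  .conj (.neg (.fut (.past (.neg (.conj (hf 2) (hf 5).rev))))) <|
  .conj (.fut (.past (.conj (.atm 0) (.atm 1)))) (.fut (.past (.conj (.atm 0) (.neg (.atm 1)))))

def lt3 (x y : Fin 3 → ℝ) : Prop :=
  x ≠ y ∧ x 0 ≤ y 0 ∧ ∑ i : Fin 2, (y i.succ - x i.succ) ^ 2 ≤ (y 0 - x 0) ^ 2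

def lt4 (x y : Fin 4 → ℝ) : Prop :=
  x ≠ y ∧ x 0 ≤ y 0 ∧ ∑ i : Fin 3, (y i.succ - x i.succ) ^ 2 ≤ (y 0 - x 0) ^ 2

lemma lt3_eq : lt3 = L := by
  funext x y
  simp only [lt3, L, K, B, Fin.sum_univ_two, Fin.succ_zero_eq_one, Fin.succ_one_eq_two,
    Pi.sub_apply, eq_iff_iff]
  refine ⟨fun ⟨a, b, c⟩ => ⟨sub_pos.2 (lt_of_le_of_ne b fun e => a (funext fun k => ?_)),
    by nlinarith⟩, fun ⟨a, b⟩ => ⟨fun e => by simp [e] at a, by linarith, by nlinarith⟩⟩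
  rw [e, sub_self] at c
  fin_cases k
  · exact e
  · show x 1 = y 1; nlinarith [sq_nonneg (y 2 - x 2)]
  · show x 2 = y 2; nlinarith [sq_nonneg (y 1 - x 1)]

lemma lt4_iff (x y : Fin 4 → ℝ) : lt4 x y ↔ x 0 < y 0 ∧
    (y 1 - x 1) ^ 2 + (y 2 - x 2) ^ 2 + (y 3 - x 3) ^ 2 ≤ (y 0 - x 0) ^ 2 := by
  simp only [lt4, Fin.sum_univ_three, Fin.succ_zero_eq_one, Fin.succ_one_eq_two]
  refine ⟨fun ⟨a, b, c⟩ => ⟨lt_of_le_of_ne b fun e => a (funext fun k => ?_), c⟩,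
    fun ⟨a, b⟩ => ⟨fun e => by simp [e] at a, a.le, b⟩⟩
  rw [e, sub_self] at c
  change _ + _ + (y 3 - x 3) ^ 2 ≤ _ at c
  fin_cases k
  · exact e
  · show x 1 = y 1; nlinarith [sq_nonneg (y 2 - x 2), sq_nonneg (y 3 - x 3)]
  · show x 2 = y 2; nlinarith [sq_nonneg (y 1 - x 1), sq_nonneg (y 3 - x 3)]
  · show x 3 = y 3; nlinarith [sq_nonneg (y 1 - x 1), sq_nonneg (y 2 - x 2)]

lemma dir (x u : V) : ∃ y, L x y ∧ L u y := by
  obtain ⟨s, s0, -, k⟩ := small (u := ![1, 0, 0]) (by simp) (by simp [B]) (u - x) one_pos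
  refine ⟨x + s⁻¹ • ![1, 0, 0], ?_, ?_⟩
  · simpa only [L, add_sub_cancel_left] using
      K_smul (u := ![1, 0, 0]) ⟨by simp, by simp [B]⟩ (inv_pos.2 s0)
  · have := K_smul k (inv_pos.2 s0)
    rw [smul_sub, smul_smul, inv_mul_cancel₀ s0.ne', one_smul] at this
    rwa [L, add_comm, add_sub_assoc, ← neg_sub u, ← sub_eq_add_neg]

theorem unsat3 (v : ℕ → Set (Fin 3 → ℝ)) (x : Fin 3 → ℝ) : x ∉ ev lt3 v psi := by
  rw [lt3_eq]
  rintro ⟨h, ⟨-, ⟨a, ⟨ha, ra⟩, -⟩, -⟩, -, ⟨b, ⟨hb, rb⟩, -⟩, -⟩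
  have k : ∀ u, u ∈ ev L v (hf 2) ∧ u ∈ ev L v (hf 5).rev := fun u => by_contra fun q => by
    obtain ⟨y, l, l'⟩ := dir x u
    exact h ⟨y, ⟨u, q, l'⟩, l⟩
  rw [ev_rev] at k
  exact rb (uniq ((ev_hf _ _ _).1 fun u => (k u).1) ((ev_hf _ _ _).1 fun u => (k u).2) ha hb ▸ ra)

def P4 : Set (Fin 4 → ℝ) := {w | w 0 = 0 ∧ w 1 = 0 ∧ w 2 = 0}

def sg (i : Fin 3) (t : ℝ) : Prop := ![0 < t, t < 0, t = 0] i

def C4 (i : Fin 3) : Set (Fin 4 → ℝ) := {w | 0 < w 0 ∧ w 1 ^ 2 + w 2 ^ 2 = w 0 ^ 2 ∧ sg i (w 1)}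

lemma sg_mul (i : Fin 3) {s t : ℝ} (hs : 0 < s) (h : sg i t) : sg i (s * t) := by
  fin_cases i <;> simp only [sg] at * <;> simp at * <;> first | nlinarith | tauto

lemma sg_ex (t : ℝ) : ∃ i, sg i t := by
  rcases lt_trichotomy t 0 with h | h | h
  exacts [⟨1, h⟩, ⟨2, h⟩, ⟨0, h⟩]

lemma above (u : Fin 4 → ℝ) : (∃ a ∈ P4, lt4 a u) ↔ 0 < u 0 ∧ u 1 ^ 2 + u 2 ^ 2 ≤ u 0 ^ 2 := by
  simp only [lt4_iff]
  refine ⟨fun ⟨a, ⟨a0, a1, a2⟩, b, c⟩ => ?_, fun ⟨b, c⟩ => ⟨![0, 0, 0, u 3], by simp [P4],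
    by simpa using b, by simpa using c⟩⟩
  rw [a0, a1, a2] at *
  exact ⟨b, by nlinarith [sq_nonneg (u 3 - a 3)]⟩

lemma exc (i : Fin 3) (s z : ℝ) (hs : 0 < s) : ∃ x ∈ C4 i, x 0 = s ∧ x 3 = z := by
  fin_cases i
  · exact ⟨![s, s, 0, z], by simp [C4, sg, hs], rfl, rfl⟩
  · exact ⟨![s, -s, 0, z], by simp [C4, sg, hs], rfl, rfl⟩
  · exact ⟨![s, 0, s, z], by simp [C4, sg, hs], rfl, rfl⟩

lemma H4 : H lt4 P4 C4 where
  A := fun a ha b hb k => by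
    have := ((lt4_iff _ _).1 k).1
    rw [ha.1, hb.1] at this; exact this.false
  R := fun a ⟨a0, a1, a2⟩ i => by
    obtain ⟨x, hx, e, f⟩ := exc i 1 (a 3) one_pos
    exact ⟨x, hx, (lt4_iff _ _).2 ⟨by linarith, by rw [a0, a1, a2, f]; linarith [hx.2.1]⟩⟩
  D := fun i j x ⟨_, _, a⟩ ⟨_, _, b⟩ => by
    fin_cases i <;> fin_cases j <;> simp only [sg] at a b <;> simp at a b ⊢ <;> linarith
  C0 := fun i x hx => (above x).2 ⟨hx.1, hx.2.1.le⟩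
  C1 := fun i x ⟨x0, x1, x2⟩ u l k => by
    obtain ⟨u0, u1⟩ := (above u).1 k
    obtain ⟨l0, l1⟩ := (lt4_iff _ _).1 l
    have ku : K ![u 0, u 1, u 2] := ⟨u0, by simp [B]; nlinarith⟩
    have kv : K ![x 0 - u 0, x 1 - u 1, x 2 - u 2] :=
      ⟨sub_pos.2 l0, by simp [B]; nlinarith [sq_nonneg (x 3 - u 3)]⟩
    obtain ⟨κ, κ0, e⟩ := par' kv ku (by simp [B]; nlinarith)
    have e0 : x 0 = (κ + 1) * u 0 := by have := congrFun e 0; simp at this; linarith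
    have e1 : x 1 = (κ + 1) * u 1 := by have := congrFun e 1; simp at this; linarith
    have e2 : x 2 = (κ + 1) * u 2 := by have := congrFun e 2; simp at this; linarith
    have k1 : 0 < κ + 1 := by linarith
    refine ⟨u0, mul_left_cancel₀ (pow_pos k1 2).ne' ?_, ?_⟩
    · rw [e0, e1, e2] at x1; linarith
    · have := sg_mul i (inv_pos.2 k1) x2
      rwa [e1, inv_mul_cancel_left₀ k1.ne'] at this
  C3 := fun i x ⟨x0, x1, x2⟩ => ⟨![2 * x 0, 2 * x 1, 2 * x 2, x 3],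
    ⟨by simpa using x0, by simp; linarith, sg_mul i two_pos x2⟩,
    (lt4_iff _ _).2 ⟨by simp; linarith, by simp; linarith⟩⟩
  I := fun y k q => by
    obtain ⟨y0, y1⟩ := (above y).1 k
    obtain ⟨i, hi⟩ := sg_ex (y 1)
    have y2 := lt_of_le_of_ne y1 fun e => q i ⟨y0, e, hi⟩
    obtain ⟨s, s0, -, k0, k1⟩ := small (u := ![y 0, y 1, y 2]) y0 (by simp [B]; nlinarith)
      ![1, 0, 0] one_pos
    simp [B] at k0 k1
    refine ⟨![s, 0, 0, y 3], (lt4_iff _ _).2 ⟨k0, by simp; nlinarith⟩, fun j => ?_⟩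
    obtain ⟨x, hx, e, f⟩ := exc j (s / 2) (y 3) (half_pos s0)
    exact ⟨x, hx, (lt4_iff _ _).2 ⟨by simp; linarith, by
      have := hx.2.1
      simp [f, e] at this ⊢; nlinarith⟩⟩
  W := fun y q k => by
    rw [above] at k
    by_cases z : y 1 ^ 2 + y 2 ^ 2 = 0
    · have z1 : y 1 = 0 := by nlinarith [sq_nonneg (y 2)]
      have z2 : y 2 = 0 := by nlinarith [sq_nonneg (y 1)]
      have z0 : y 0 < 0 := lt_of_le_of_ne (not_lt.1 fun e => k ⟨e, z ▸ sq_nonneg _⟩)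
        fun e => q ⟨e, z1, z2⟩
      obtain ⟨x, hx, e, f⟩ := exc 0 1 (y 3) one_pos
      exact ⟨0, x, hx, (lt4_iff _ _).2 ⟨by linarith, by
        have := hx.2.1
        rw [z1, z2, f, e] at *; nlinarith⟩⟩
    · obtain ⟨i, hi⟩ := sg_ex (y 1)
      have z0 : 0 < y 1 ^ 2 + y 2 ^ 2 := lt_of_le_of_ne (by positivity) (Ne.symm z)
      refine ⟨i, ![√(y 1 ^ 2 + y 2 ^ 2), y 1, y 2, y 3],
        ⟨Real.sqrt_pos.2 z0, (Real.sq_sqrt z0.le).symm, hi⟩,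
        (lt4_iff _ _).2 ⟨?_, by simp; positivity⟩⟩
      show y 0 < √_
      rcases le_or_gt (y 0) 0 with e | e
      · exact e.trans_lt (Real.sqrt_pos.2 z0)
      · exact Real.lt_sqrt_of_sq_lt (not_le.1 fun r => k ⟨e, r⟩)

lemma H.negate {α : Type} {lt : α → α → Prop} {p : Set α} {d : Fin 3 → Set α} (n : α → α)
    (nn : ∀ x, n (n x) = x) (ng : ∀ x y, lt (n x) (n y) ↔ lt y x) (h' : H lt p d) :
    H (fun x y => lt y x) {x | n x ∈ p} (fun i => {x | n x ∈ d i}) := by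
  have ng' : ∀ x y, lt (n x) y ↔ lt (n y) x := fun x y => by rw [← ng x, nn]
  have ng'' : ∀ x y, lt x (n y) ↔ lt y (n x) := fun x y => by rw [← ng (n y), nn]
  have ex : ∀ (s : Set α) (q : α → Prop), (∃ x ∈ s, q x) → ∃ x, n x ∈ s ∧ q (n x) :=
    fun s q ⟨x, u, v⟩ => ⟨n x, by rwa [nn], by rwa [nn]⟩
  exact
    { A := fun a ha b hb k => h'.A _ ha _ hb ((ng _ _).2 k)
      R := fun a ha i => by simpa only [ng, Set.mem_setOf_eq] using ex _ _ (h'.R _ ha i)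
      D := fun i j x => h'.D i j _
      C0 := fun i x hx => by simpa only [ng, Set.mem_setOf_eq] using ex _ _ (h'.C0 i _ hx)
      C1 := fun i x hx u l ⟨a, ha, k⟩ => h'.C1 i _ hx _ ((ng _ _).2 l) ⟨_, ha, (ng _ _).2 k⟩
      C3 := fun i x hx => by simpa only [ng, Set.mem_setOf_eq] using ex _ _ (h'.C3 i _ hx)
      I := fun y ⟨a, ha, k⟩ q => by
        obtain ⟨z, l, r⟩ := h'.I _ ⟨_, ha, (ng _ _).2 k⟩ q
        refine ⟨n z, (ng'' _ _).1 l, fun i => ?_⟩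
        simpa only [ng', Set.mem_setOf_eq] using ex _ _ (r i)
      W := fun y hy q => by
        obtain ⟨i, r⟩ := h'.W _ hy fun r => q (by simpa only [ng, Set.mem_setOf_eq] using ex _ _ r)
        exact ⟨i, by simpa only [ng, Set.mem_setOf_eq] using ex _ _ r⟩ }

theorem sat4 : ∃ (w : ℕ → Set (Fin 4 → ℝ)) (y : Fin 4 → ℝ), y ∈ ev lt4 w psi := by
  let w : ℕ → Set (Fin 4 → ℝ) := fun k => match k with
    | 0 => P4 | 1 => {x | 0 < x 3} | 2 => C4 0 | 3 => C4 1 | 4 => C4 2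
    | 5 => {x | -x ∈ C4 0} | 6 => {x | -x ∈ C4 1} | _ => {x | -x ∈ C4 2}
  have h1 : H lt4 (w 0) (fun i => w (2 + i)) := by
    have : (fun i : Fin 3 => w (2 + i)) = C4 := funext fun i => by fin_cases i <;> rfl
    rw [this]; exact H4
  have h2 : H (fun x y => lt4 y x) (w 0) (fun i => w (5 + i)) := by
    convert H4.negate (fun x => -x) neg_neg (fun x y => ?_) using 2 with i
    · ext x; simp [w, P4]
    · fin_cases i <;> rfl
    · simp only [lt4_iff, Pi.neg_apply, neg_lt_neg_iff, neg_sub_neg]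
  refine ⟨w, 0, fun ⟨y, ⟨u, q, _⟩, _⟩ => q ⟨(ev_hf _ _ _).2 h1 u, ?_⟩,
    ⟨![1, 0, 0, 0], ⟨![0, 0, 0, 1], ⟨by simp [ev, w, P4], by simp [ev, w]⟩, ?_⟩, ?_⟩,
    ⟨![1, 0, 0, 0], ⟨0, ⟨by simp [ev, w, P4], by simp [ev, w]⟩, ?_⟩, ?_⟩⟩
  · rw [ev_rev]; exact (ev_hf _ _ _).2 h2 u
  all_goals simp [lt4_iff]

end Pool.Agent.H.Mink
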